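import Pool.Agent.Y388.BB.Gen

/-!
# Finite unions
-/

set_option autoImplicit false

namespace Pool.Agent.Y388.BB

open Hindman Filter Pool.Agent.W842.SP

attribute [local instance] Ultrafilter.add Ultrafilter.addSemigroup

/-- all elements of the first set are smaller than all elements of the second set -/
def Lt (S T : Finset ℕ) : Prop := ∀ x ∈ S, ∀ y ∈ T, x < y

/-- the binary support -/
def E (n : ℕ) : Finset ℕ := n.bitIndices.toFinset

theorem E_sum (n : ℕ) : ∑ i ∈ E n, 2 ^ i = n := Finset.sum_toFinset_bitIndices_two_pow n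

theorem E_of_sum (s : Finset ℕ) : E (∑ i ∈ s, 2 ^ i) = s := Finset.toFinset_bitIndices_sum_two_pow s

theorem E_add {x y : ℕ} (h : Lt (E x) (E y)) : E (x + y) = E x ∪ E y := by
  have hd : Disjoint (E x) (E y) := by
    rw [Finset.disjoint_left]
    intro a ha hb
    exact lt_irrefl _ (h a ha a hb)
  rw [← E_of_sum (E x ∪ E y), Finset.sum_union hd, E_sum, E_sum]

theorem E_lt {x y m : ℕ} (hx : x < 2 ^ m) (hy : 2 ^ m ∣ y) : Lt (E x) (E y) := by
  intro i hi j hj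
  have h1 : 2 ^ i ≤ x := Nat.two_pow_le_of_mem_bitIndices (List.mem_toFinset.1 hi)
  have h2 : i < m := (Nat.pow_lt_pow_iff_right (by norm_num)).1 (lt_of_le_of_lt h1 hx)
  obtain ⟨z, rfl⟩ := hy
  have h3 := List.mem_toFinset.1 hj
  rw [Nat.bitIndices_two_pow_mul, List.mem_map] at h3
  obtain ⟨a, _, ha⟩ := h3
  omega

theorem E_nonempty {x : ℕ} (hx : 0 < x) : (E x).Nonempty := by
  rw [Finset.nonempty_iff_ne_empty]
  intro h
  have := E_sum x
  rw [h, Finset.sum_empty] at this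
  omega

/-- the pattern -/
def Pat {κ : Type*} (χ : Finset ℕ → κ) (α β γ : Finset ℕ) : Prop :=
  α.Nonempty ∧ β.Nonempty ∧ γ.Nonempty ∧ Lt α β ∧ Lt α γ ∧ Lt β γ ∧
    χ (α ∪ β) = χ α ∧ χ (α ∪ γ) = χ α ∧ χ (α ∪ (β ∪ γ)) = χ α

theorem fu_inf {κ : Type*} [Finite κ] (χ : Finset ℕ → κ) : ∃ α β γ, Pat χ α β γ := by
  obtain ⟨p, hp, hpPS⟩ := Pool.Agent.W842.SP.exists_idem
  have h0 : ∀ᶠ n in (p : Filter ℕ), 0 < n := by
    by_contra hcon
    rw [← Ultrafilter.eventually_not] at hcon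
    obtain ⟨a, ha, ha'⟩ := (hpPS _ hcon).exists_gt 0
    exact ha' ha
  have hadd : ∀ Q : ℕ → Prop, (∀ᶠ n in (p : Filter ℕ), Q n) →
      ∀ᶠ x in (p : Filter ℕ), ∀ᶠ y in (p : Filter ℕ), Q (x + y) := by
    intro Q hQ
    rw [← hp, Ultrafilter.eventually_add] at hQ
    exact hQ
  obtain ⟨t, ht⟩ := Ultrafilter.eq_pure_of_finite (p.map (fun n => χ (E n)))
  have h1 : ∀ᶠ n in (p : Filter ℕ), χ (E n) = t := by
    have h : ({t} : Set κ) ∈ p.map (fun n => χ (E n)) := by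
      rw [ht]
      exact Filter.mem_pure.2 rfl
    exact h
  obtain ⟨x, hx0, hx1, hx2⟩ := (h0.and (h1.and (hadd _ h1))).exists
  obtain ⟨y, hy0, hyd, hy1, hy2⟩ := (h0.and ((idem_dvd hp (show 0 < 2 ^ x by positivity)).and
    (hx2.and (hadd _ hx2)))).exists
  obtain ⟨z, hz0, hzd, hz1, hz2⟩ := (h0.and ((idem_dvd hp
    (show 0 < 2 ^ (x + y) by positivity)).and (hx2.and hy2))).exists
  have l1 : Lt (E x) (E y) := E_lt Nat.lt_two_pow_self hyd
  have l2 : Lt (E x) (E z) :=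
    E_lt (lt_of_lt_of_le Nat.lt_two_pow_self (Nat.pow_le_pow_right (by norm_num) (by omega))) hzd
  have l3 : Lt (E y) (E z) :=
    E_lt (lt_of_lt_of_le Nat.lt_two_pow_self (Nat.pow_le_pow_right (by norm_num) (by omega))) hzd
  have l4 : Lt (E x) (E (y + z)) := by
    rw [E_add l3]
    intro a ha b hb
    rcases Finset.mem_union.1 hb with h | h
    · exact l1 a ha b h
    · exact l2 a ha b h
  refine ⟨E x, E y, E z, E_nonempty hx0, E_nonempty hy0, E_nonempty hz0, l1, l2, l3, ?_, ?_, ?_⟩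
  · rw [← E_add l1, hy1, hx1]
  · rw [← E_add l2, hz1, hx1]
  · rw [← E_add l3, ← E_add l4, hz2, hx1]

/-- The finite form. -/
theorem fu (κ : Type*) [Finite κ] : ∃ L : ℕ, ∀ χ : Finset ℕ → κ, ∃ α β γ, Pat χ α β γ ∧
    α ⊆ Finset.range L ∧ β ⊆ Finset.range L ∧ γ ⊆ Finset.range L := by
  by_contra hcon
  push Not at hcon
  choose χ hχ using hcon
  choose χ' hχ' using fun S : Finset ℕ => ulim (fun n => χ n S)
  obtain ⟨α, β, γ, hP⟩ := fu_inf χ'
  obtain ⟨L, hL⟩ : ∃ L, α ∪ (β ∪ γ) ⊆ Finset.range L :=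
    ⟨(α ∪ (β ∪ γ)).sup id + 1, fun a ha => Finset.mem_range.2
      (Nat.lt_succ_of_le (Finset.le_sup (f := id) ha))⟩
  obtain ⟨n, hn, e1, e2, e3, e4⟩ := ((ule L).and ((hχ' α).and ((hχ' (α ∪ β)).and
    ((hχ' (α ∪ γ)).and (hχ' (α ∪ (β ∪ γ))))))).exists
  have hLn : Finset.range L ⊆ Finset.range n := Finset.range_subset_range.2 hn
  obtain ⟨p1, p2, p3, p4, p5, p6, p7, p8, p9⟩ := hP
  refine hχ n α β γ ⟨p1, p2, p3, p4, p5, p6, ?_, ?_, ?_⟩
    ((Finset.subset_union_left.trans hL).trans hLn)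
    (((Finset.subset_union_left.trans Finset.subset_union_right).trans hL).trans hLn)
    (((Finset.subset_union_right.trans Finset.subset_union_right).trans hL).trans hLn)
  · rw [e1, e2, p7]
  · rw [e1, e3, p8]
  · rw [e1, e4, p9]

end Pool.Agent.Y388.BB
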