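import Pool.Agent.Y388.BB.Outer
import Pool.Agent.Y388.BB.FU

/-!
# The chain of outer steps
-/

set_option autoImplicit false

namespace Pool.Agent.Y388.BB

variable {κ : Type*}

/-- the target -/
def TG (C : Finset ℕ → ℕ → ℕ → κ) : Prop :=
  ∃ t A B σ c d, 1 ≤ A ∧ 1 ≤ B ∧ 1 ≤ c ∧ 1 ≤ d ∧ ∀ v, (v = c + d ∨ v = c * d) →
    A * (A * B) ∣ v ∧ C ∅ A (σ + B + v / A) = t ∧
    C ∅ (A * (A * B)) (σ + v / (A * (A * B))) = t ∧
    C ∅ (A * v) (σ + B) = t ∧ C ∅ (A * (A * B) * v) σ = t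

/-- the state inside the third set -/
def SG (C : Finset ℕ → ℕ → ℕ → κ) (S : Finset ℕ) : Prop :=
  ∃ t A B σ w, 1 ≤ A ∧ 1 ≤ B ∧ 1 ≤ w ∧ C ∅ A (σ + B) = t ∧ C ∅ (A * (A * B)) σ = t ∧
    C S (A * w) (σ + B) = t ∧ C S (A * (A * B) * w) σ = t

/-- the state inside the second set -/
def SB (C : Finset ℕ → ℕ → ℕ → κ) (T S : Finset ℕ) : Prop :=
  ∃ t A b σ, 1 ≤ A ∧ 1 ≤ b ∧ C ∅ A σ = t ∧ C T (A * b) σ = t ∧ C S A σ = t ∧
    C (T ∪ S) (A * b) σ = t

/-- the state inside the first set -/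
def SA (C : Finset ℕ → ℕ → ℕ → κ) (U T S : Finset ℕ) : Prop :=
  ∃ t A σ, 1 ≤ A ∧ C U A σ = t ∧ C (U ∪ T) A σ = t ∧ C (U ∪ S) A σ = t ∧ C (U ∪ (T ∪ S)) A σ = t

/-- the next array -/
def nx (j : ℕ) (C0 C1 : Finset ℕ → ℕ → ℕ → κ) : Finset ℕ → ℕ → ℕ → κ :=
  fun S => if j ∈ S then C1 (S.erase j) else C0 S

theorem nx_mem {j : ℕ} {C0 C1 : Finset ℕ → ℕ → ℕ → κ} {S : Finset ℕ} (h : j ∈ S) :
    nx j C0 C1 S = C1 (S.erase j) := if_pos h

theorem nx_notMem {j : ℕ} {C0 C1 : Finset ℕ → ℕ → ℕ → κ} {S : Finset ℕ} (h : j ∉ S) :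
    nx j C0 C1 S = C0 S := if_neg h

theorem nx_empty {j : ℕ} {C0 C1 : Finset ℕ → ℕ → ℕ → κ} : nx j C0 C1 ∅ = C0 ∅ :=
  nx_notMem (Finset.notMem_empty j)

section Gd

variable {ι : Type*} {I : Finset ι} {C C0 C1 : ι → ℕ → ℕ → κ} {N s z : ℕ}

theorem Gd.zero (h : Gd I C C0 C1 N s z) (hN : 1 ≤ N) {i : ι} (hi : i ∈ I) {m σ : ℕ}
    (hm : m ≤ N) (hσ : σ ≤ N) : C i m (σ + s) = C0 i m σ := by
  have := (h.2 i hi m hm σ hσ).1 0 (Nat.zero_le _) 1 le_rfl hN
  simpa using this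

theorem Gd.shift (h : Gd I C C0 C1 N s z) {i : ι} (hi : i ∈ I) {m σ n d : ℕ}
    (hm : m ≤ N) (hσ : σ ≤ N) (hn : n ≤ N) (hd1 : 1 ≤ d) (hd2 : d ≤ N) :
    C i m (σ + s + n * (z / d)) = C0 i m σ := (h.2 i hi m hm σ hσ).1 n hn d hd1 hd2

theorem Gd.mul (h : Gd I C C0 C1 N s z) {i : ι} (hi : i ∈ I) {m σ : ℕ}
    (hm : m ≤ N) (hσ : σ ≤ N) : C i (m * z) (σ + s) = C1 i m σ := (h.2 i hi m hm σ hσ).2

end Gd

variable {L j : ℕ} {C C0 C1 : Finset ℕ → ℕ → ℕ → κ}

theorem tg_step (h : OStp (Finset.range L).powerset C C0 C1) (hT : TG (nx j C0 C1)) : TG C := by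
  obtain ⟨t, A, B, σ, c, d, hA, hB, hc, hd, hv⟩ := hT
  set V := (c + d) + c * d with hV
  obtain ⟨s, y, hy, hG, _⟩ := h (σ + B + V + A * V + A * (A * B) * V + A * (A * B) + A)
  set N := σ + B + V + A * V + A * (A * B) * V + A * (A * B) + A with hN
  have hI : (∅ : Finset ℕ) ∈ (Finset.range L).powerset := Finset.empty_mem_powerset _
  refine ⟨t, A, B, σ + s, c, d, hA, hB, hc, hd, fun v hv' => ?_⟩
  obtain ⟨v1, v2, v3, v4, v5⟩ := hv v hv'
  rw [nx_empty] at v2 v3 v4 v5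
  have hvV : v ≤ V := by rcases hv' with h | h <;> omega
  have b1 : v / A ≤ v := Nat.div_le_self _ _
  have b2 : v / (A * (A * B)) ≤ v := Nat.div_le_self _ _
  have b3 : A * v ≤ A * V := Nat.mul_le_mul_left _ hvV
  have b4 : A * (A * B) * v ≤ A * (A * B) * V := Nat.mul_le_mul_left _ hvV
  refine ⟨v1, ?_, ?_, ?_, ?_⟩
  · have e : σ + s + B + v / A = σ + B + v / A + s := by ring
    rw [e, hG.zero (by omega) hI (by omega) (by omega), v2]
  · have e : σ + s + v / (A * (A * B)) = σ + v / (A * (A * B)) + s := by ring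
    rw [e, hG.zero (by omega) hI (by omega) (by omega), v3]
  · have e : σ + s + B = σ + B + s := by ring
    rw [e, hG.zero (by omega) hI (by omega) (by omega), v4]
  · rw [hG.zero (by omega) hI (by omega) (by omega), v5]

theorem sg_step1 (h : OStp (Finset.range L).powerset C C0 C1) {S : Finset ℕ}
    (hS : S ⊆ Finset.range L) (hj : j ∉ S) (hT : SG (nx j C0 C1) S) : SG C S := by
  obtain ⟨t, A, B, σ, w, hA, hB, hw, v1, v2, v3, v4⟩ := hT
  rw [nx_empty] at v1 v2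
  rw [nx_notMem hj] at v3 v4
  obtain ⟨s, y, hy, hG, _⟩ := h (σ + B + A + A * (A * B) + A * w + A * (A * B) * w)
  have hI : (∅ : Finset ℕ) ∈ (Finset.range L).powerset := Finset.empty_mem_powerset _
  have hS' : S ∈ (Finset.range L).powerset := Finset.mem_powerset.2 hS
  have e : σ + s + B = σ + B + s := by ring
  refine ⟨t, A, B, σ + s, w, hA, hB, hw, ?_, ?_, ?_, ?_⟩
  · rw [e, hG.zero (by omega) hI (by omega) (by omega), v1]
  · rw [hG.zero (by omega) hI (by omega) (by omega), v2]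
  · rw [e, hG.zero (by omega) hS' (by omega) (by omega), v3]
  · rw [hG.zero (by omega) hS' (by omega) (by omega), v4]

theorem sg_step2 (h : OStp (Finset.range L).powerset C C0 C1) {S : Finset ℕ}
    (hS : S ⊆ Finset.range L) (hj : j ∈ S) (hT : SG (nx j C0 C1) S) : SG C (S.erase j) := by
  obtain ⟨t, A, B, σ, w, hA, hB, hw, v1, v2, v3, v4⟩ := hT
  rw [nx_empty] at v1 v2
  rw [nx_mem hj] at v3 v4
  obtain ⟨s, y, hy, hG, _⟩ := h (σ + B + A + A * (A * B) + A * w + A * (A * B) * w)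
  have hI : (∅ : Finset ℕ) ∈ (Finset.range L).powerset := Finset.empty_mem_powerset _
  have hS' : S.erase j ∈ (Finset.range L).powerset :=
    Finset.mem_powerset.2 ((Finset.erase_subset _ _).trans hS)
  have e : σ + s + B = σ + B + s := by ring
  refine ⟨t, A, B, σ + s, w * y, hA, hB, Nat.mul_pos hw hy, ?_, ?_, ?_, ?_⟩
  · rw [e, hG.zero (by omega) hI (by omega) (by omega), v1]
  · rw [hG.zero (by omega) hI (by omega) (by omega), v2]
  · rw [e, ← mul_assoc, hG.mul hS' (by omega) (by omega), v3]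
  · rw [← mul_assoc, hG.mul hS' (by omega) (by omega), v4]

theorem sg_step3 (h : OStp (Finset.range L).powerset C C0 C1) {S : Finset ℕ}
    (hj : j ∈ S) (hSj : S.erase j = ∅) (hT : SG (nx j C0 C1) S) : TG C := by
  obtain ⟨t, A, B, σ, w, hA, hB, hw, v1, v2, v3, v4⟩ := hT
  rw [nx_empty] at v1 v2
  rw [nx_mem hj, hSj] at v3 v4
  obtain ⟨s, y, hy, hG, hw'⟩ := h (σ + B + A + A * (A * B) + A * w + A * (A * B) * w + w)
  obtain ⟨y1, c, d, hy1, hc, hd, hcd, hcd', hG1⟩ := hw' w hw (by omega)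
  have hI : (∅ : Finset ℕ) ∈ (Finset.range L).powerset := Finset.empty_mem_powerset _
  have hAB : 1 ≤ A * (A * B) := Nat.mul_pos hA (Nat.mul_pos hA hB)
  refine ⟨t, A, B, σ + s, c, d, hA, hB, hc, hd, fun v hv' => ?_⟩
  obtain ⟨z, hvz, hz⟩ : ∃ z, v = w * z ∧ Gd (Finset.range L).powerset C C0 C1
      (σ + B + A + A * (A * B) + A * w + A * (A * B) * w + w) s z := by
    rcases hv' with hv' | hv'
    · exact ⟨y1, by rw [hv', hcd], hG1⟩
    · exact ⟨y, by rw [hv', hcd'], hG⟩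
  have d1 : A ∣ z := hz.1 A hA (by omega)
  have d2 : A * (A * B) ∣ z := hz.1 _ hAB (by omega)
  rw [hvz]
  refine ⟨Dvd.dvd.mul_left d2 _, ?_, ?_, ?_, ?_⟩
  · have e : σ + s + B + w * z / A = σ + B + s + w * (z / A) := by
      rw [Nat.mul_div_assoc _ d1]; ring
    rw [e, hz.shift hI (by omega) (by omega) (by omega) hA (by omega), v1]
  · rw [Nat.mul_div_assoc _ d2, hz.shift hI (by omega) (by omega) (by omega) hAB (by omega), v2]
  · have e : σ + s + B = σ + B + s := by ring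
    rw [e, ← mul_assoc, hz.mul hI (by omega) (by omega), v3]
  · rw [← mul_assoc, hz.mul hI (by omega) (by omega), v4]

theorem sb_step1 (h : OStp (Finset.range L).powerset C C0 C1) {T S : Finset ℕ}
    (hT : T ⊆ Finset.range L) (hS : S ⊆ Finset.range L) (hjT : j ∉ T) (hjS : j ∉ S)
    (hB : SB (nx j C0 C1) T S) : SB C T S := by
  obtain ⟨t, A, b, σ, hA, hb, v1, v2, v3, v4⟩ := hB
  rw [nx_empty] at v1
  rw [nx_notMem hjT] at v2
  rw [nx_notMem hjS] at v3
  rw [nx_notMem (by simp [hjT, hjS])] at v4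
  obtain ⟨s, y, hy, hG, _⟩ := h (σ + A + A * b)
  refine ⟨t, A, b, σ + s, hA, hb, ?_, ?_, ?_, ?_⟩
  · rw [hG.zero (by omega) (Finset.empty_mem_powerset _) (by omega) (by omega), v1]
  · rw [hG.zero (by omega) (Finset.mem_powerset.2 hT) (by omega) (by omega), v2]
  · rw [hG.zero (by omega) (Finset.mem_powerset.2 hS) (by omega) (by omega), v3]
  · rw [hG.zero (by omega) (Finset.mem_powerset.2 (Finset.union_subset hT hS)) (by omega)
      (by omega), v4]

theorem sb_step2 (h : OStp (Finset.range L).powerset C C0 C1) {T S : Finset ℕ}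
    (hT : T ⊆ Finset.range L) (hS : S ⊆ Finset.range L) (hjT : j ∈ T) (hjS : j ∉ S)
    (hB : SB (nx j C0 C1) T S) : SB C (T.erase j) S := by
  obtain ⟨t, A, b, σ, hA, hb, v1, v2, v3, v4⟩ := hB
  rw [nx_empty] at v1
  rw [nx_mem hjT] at v2
  rw [nx_notMem hjS] at v3
  rw [nx_mem (by simp [hjT]), Finset.erase_union_distrib, Finset.erase_eq_of_notMem hjS] at v4
  have hT' : T.erase j ⊆ Finset.range L := (Finset.erase_subset _ _).trans hT
  obtain ⟨s, y, hy, hG, _⟩ := h (σ + A + A * b)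
  refine ⟨t, A, b * y, σ + s, hA, Nat.mul_pos hb hy, ?_, ?_, ?_, ?_⟩
  · rw [hG.zero (by omega) (Finset.empty_mem_powerset _) (by omega) (by omega), v1]
  · rw [← mul_assoc, hG.mul (Finset.mem_powerset.2 hT') (by omega) (by omega), v2]
  · rw [hG.zero (by omega) (Finset.mem_powerset.2 hS) (by omega) (by omega), v3]
  · rw [← mul_assoc, hG.mul (Finset.mem_powerset.2 (Finset.union_subset hT' hS)) (by omega)
      (by omega), v4]

theorem sb_step3 (h : OStp (Finset.range L).powerset C C0 C1) {T S : Finset ℕ}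
    (hS : S ⊆ Finset.range L) (hjT : j ∈ T) (hTj : T.erase j = ∅) (hjS : j ∉ S)
    (hB : SB (nx j C0 C1) T S) : SG C S := by
  obtain ⟨t, A, b, σ, hA, hb, v1, v2, v3, v4⟩ := hB
  rw [nx_empty] at v1
  rw [nx_mem hjT, hTj] at v2
  rw [nx_notMem hjS] at v3
  rw [nx_mem (by simp [hjT]), Finset.erase_union_distrib, Finset.erase_eq_of_notMem hjS, hTj,
    Finset.empty_union] at v4
  obtain ⟨s, y, hy, hG, _⟩ := h (σ + A + A * b + b)
  have hI : (∅ : Finset ℕ) ∈ (Finset.range L).powerset := Finset.empty_mem_powerset _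
  have hS' : S ∈ (Finset.range L).powerset := Finset.mem_powerset.2 hS
  obtain ⟨q, hq⟩ : A ∣ y := hG.1 A hA (by omega)
  have hyA : y / A = q := by rw [hq]; exact Nat.mul_div_cancel_left _ hA
  have hq0 : 1 ≤ q := by
    rcases Nat.eq_zero_or_pos q with h | h
    · rw [h, mul_zero] at hq; omega
    · exact h
  have e1 : A * (A * (b * (y / A))) = A * b * y := by rw [hyA, hq]; ring
  refine ⟨t, A, b * (y / A), σ + s, 1, hA, by rw [hyA]; exact Nat.mul_pos hb hq0, le_rfl,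
    ?_, ?_, ?_, ?_⟩
  · rw [hG.shift hI (by omega) (by omega) (by omega) hA (by omega), v1]
  · rw [e1, hG.mul hI (by omega) (by omega), v2]
  · rw [mul_one, hG.shift hS' (by omega) (by omega) (by omega) hA (by omega), v3]
  · rw [e1, mul_one, hG.mul hS' (by omega) (by omega), v4]

theorem sa_step1 (h : OStp (Finset.range L).powerset C C0 C1) {U T S : Finset ℕ}
    (hU : U ⊆ Finset.range L) (hT : T ⊆ Finset.range L) (hS : S ⊆ Finset.range L)
    (hjU : j ∉ U) (hjT : j ∉ T) (hjS : j ∉ S)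
    (hB : SA (nx j C0 C1) U T S) : SA C U T S := by
  obtain ⟨t, A, σ, hA, v1, v2, v3, v4⟩ := hB
  rw [nx_notMem hjU] at v1
  rw [nx_notMem (by simp [hjU, hjT])] at v2
  rw [nx_notMem (by simp [hjU, hjS])] at v3
  rw [nx_notMem (by simp [hjU, hjT, hjS])] at v4
  obtain ⟨s, y, hy, hG, _⟩ := h (σ + A)
  refine ⟨t, A, σ + s, hA, ?_, ?_, ?_, ?_⟩
  · rw [hG.zero (by omega) (Finset.mem_powerset.2 hU) (by omega) (by omega), v1]
  · rw [hG.zero (by omega) (Finset.mem_powerset.2 (Finset.union_subset hU hT)) (by omega)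
      (by omega), v2]
  · rw [hG.zero (by omega) (Finset.mem_powerset.2 (Finset.union_subset hU hS)) (by omega)
      (by omega), v3]
  · rw [hG.zero (by omega) (Finset.mem_powerset.2 (Finset.union_subset hU
      (Finset.union_subset hT hS))) (by omega) (by omega), v4]

theorem sa_step2 (h : OStp (Finset.range L).powerset C C0 C1) {U T S : Finset ℕ}
    (hU : U ⊆ Finset.range L) (hT : T ⊆ Finset.range L) (hS : S ⊆ Finset.range L)
    (hjU : j ∈ U) (hjT : j ∉ T) (hjS : j ∉ S)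
    (hB : SA (nx j C0 C1) U T S) : SA C (U.erase j) T S := by
  obtain ⟨t, A, σ, hA, v1, v2, v3, v4⟩ := hB
  rw [nx_mem hjU] at v1
  rw [nx_mem (by simp [hjU]), Finset.erase_union_distrib, Finset.erase_eq_of_notMem hjT] at v2
  rw [nx_mem (by simp [hjU]), Finset.erase_union_distrib, Finset.erase_eq_of_notMem hjS] at v3
  rw [nx_mem (by simp [hjU]), Finset.erase_union_distrib,
    Finset.erase_eq_of_notMem (show j ∉ T ∪ S by simp [hjT, hjS])] at v4
  have hU' : U.erase j ⊆ Finset.range L := (Finset.erase_subset _ _).trans hU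
  obtain ⟨s, y, hy, hG, _⟩ := h (σ + A)
  refine ⟨t, A * y, σ + s, Nat.mul_pos hA hy, ?_, ?_, ?_, ?_⟩
  · rw [hG.mul (Finset.mem_powerset.2 hU') (by omega) (by omega), v1]
  · rw [hG.mul (Finset.mem_powerset.2 (Finset.union_subset hU' hT)) (by omega)
      (by omega), v2]
  · rw [hG.mul (Finset.mem_powerset.2 (Finset.union_subset hU' hS)) (by omega)
      (by omega), v3]
  · rw [hG.mul (Finset.mem_powerset.2 (Finset.union_subset hU'
      (Finset.union_subset hT hS))) (by omega) (by omega), v4]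

theorem sa_empty {T S : Finset ℕ} (h : SA C ∅ T S) : SB C T S := by
  obtain ⟨t, A, σ, hA, v1, v2, v3, v4⟩ := h
  simp only [Finset.empty_union] at v2 v3 v4
  exact ⟨t, A, 1, σ, hA, le_rfl, v1, by rw [mul_one]; exact v2, v3, by rw [mul_one]; exact v4⟩

/-- the four implications -/
def Rch (L j : ℕ) (Cb C : Finset ℕ → ℕ → ℕ → κ) : Prop :=
  (TG C → TG Cb) ∧
  (∀ S : Finset ℕ, S.Nonempty → S ⊆ Finset.range L → (∀ x ∈ S, j ≤ x) → SG C S → TG Cb) ∧
  (∀ T S : Finset ℕ, T.Nonempty → S.Nonempty → T ⊆ Finset.range L → S ⊆ Finset.range L →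
    (∀ x ∈ T, j ≤ x) → Lt T S → SB C T S → TG Cb) ∧
  (∀ U T S : Finset ℕ, U.Nonempty → T.Nonempty → S.Nonempty → U ⊆ Finset.range L →
    T ⊆ Finset.range L → S ⊆ Finset.range L → (∀ x ∈ U, j ≤ x) → Lt U T → Lt U S → Lt T S →
    SA C U T S → TG Cb)

theorem rch_step [Finite κ] {Cb : Finset ℕ → ℕ → ℕ → κ} (h : Rch L (j + 1) Cb C) :
    ∃ C', Rch L j Cb C' := by
  obtain ⟨h1, h2, h3, h4⟩ := h
  obtain ⟨C0, C1, hO⟩ := ostep (Finset.range L).powerset C
  have hup : ∀ S : Finset ℕ, (∀ x ∈ S, j ≤ x) → j ∉ S → ∀ x ∈ S, j + 1 ≤ x := by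
    intro S hS hj x hx
    rcases Nat.eq_or_lt_of_le (hS x hx) with h | h
    · rw [h] at hj; exact absurd hx hj
    · exact h
  have hupE : ∀ S : Finset ℕ, (∀ x ∈ S, j ≤ x) → ∀ x ∈ S.erase j, j + 1 ≤ x := by
    intro S hS
    exact hup _ (fun x hx => hS x (Finset.mem_of_mem_erase hx)) (Finset.notMem_erase j S)
  -- the second family
  have g2 : ∀ S : Finset ℕ, S.Nonempty → S ⊆ Finset.range L → (∀ x ∈ S, j ≤ x) →
      SG (nx j C0 C1) S → TG Cb := by
    intro S hS hSL hSj hst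
    by_cases hj : j ∈ S
    · rcases Finset.eq_empty_or_nonempty (S.erase j) with he | he
      · exact h1 (sg_step3 hO hj he hst)
      · exact h2 _ he ((Finset.erase_subset _ _).trans hSL) (hupE S hSj) (sg_step2 hO hSL hj hst)
    · exact h2 S hS hSL (hup S hSj hj) (sg_step1 hO hSL hj hst)
  -- the third family
  have g3 : ∀ T S : Finset ℕ, T.Nonempty → S.Nonempty → T ⊆ Finset.range L →
      S ⊆ Finset.range L → (∀ x ∈ T, j ≤ x) → Lt T S → SB (nx j C0 C1) T S → TG Cb := by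
    intro T S hT hS hTL hSL hTj hlt hst
    have hjS : j ∉ S := by
      intro hjS
      obtain ⟨x, hx⟩ := hT
      have := hlt x hx j hjS
      have := hTj x hx
      omega
    have hSj : ∀ x ∈ S, j + 1 ≤ x := by
      intro x hx
      obtain ⟨a, ha⟩ := hT
      have := hlt a ha x hx
      have := hTj a ha
      omega
    by_cases hj : j ∈ T
    · rcases Finset.eq_empty_or_nonempty (T.erase j) with he | he
      · exact h2 S hS hSL hSj (sb_step3 hO hSL hj he hjS hst)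
      · exact h3 _ S he hS ((Finset.erase_subset _ _).trans hTL) hSL (hupE T hTj)
          (fun x hx y hy => hlt x (Finset.mem_of_mem_erase hx) y hy)
          (sb_step2 hO hTL hSL hj hjS hst)
    · exact h3 T S hT hS hTL hSL (hup T hTj hj) hlt (sb_step1 hO hTL hSL hj hjS hst)
  refine ⟨nx j C0 C1, fun hT => h1 (tg_step hO hT), g2, g3, ?_⟩
  intro U T S hU hT hS hUL hTL hSL hUj hUT hUS hTS hst
  have hjT : j ∉ T := by
    intro hjT
    obtain ⟨x, hx⟩ := hU
    have := hUT x hx j hjT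
    have := hUj x hx
    omega
  have hjS : j ∉ S := by
    intro hjS
    obtain ⟨x, hx⟩ := hU
    have := hUS x hx j hjS
    have := hUj x hx
    omega
  have hTj : ∀ x ∈ T, j + 1 ≤ x := by
    intro x hx
    obtain ⟨a, ha⟩ := hU
    have := hUT a ha x hx
    have := hUj a ha
    omega
  by_cases hj : j ∈ U
  · have hst' := sa_step2 hO hUL hTL hSL hj hjT hjS hst
    rcases Finset.eq_empty_or_nonempty (U.erase j) with he | he
    · rw [he] at hst'
      exact h3 T S hT hS hTL hSL hTj hTS (sa_empty hst')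
    · exact h4 _ T S he hT hS ((Finset.erase_subset _ _).trans hUL) hTL hSL (hupE U hUj)
        (fun x hx y hy => hUT x (Finset.mem_of_mem_erase hx) y hy)
        (fun x hx y hy => hUS x (Finset.mem_of_mem_erase hx) y hy) hTS hst'
  · exact h4 U T S hU hT hS hUL hTL hSL (hup U hUj hj) hUT hUS hTS
      (sa_step1 hO hUL hTL hSL hj hjT hjS hst)

theorem rch_all [Finite κ] (L : ℕ) (Cb : Finset ℕ → ℕ → ℕ → κ) :
    ∀ n ≤ L, ∃ C, Rch L (L - n) Cb C := by
  intro n
  induction n with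
  | zero =>
    intro _
    refine ⟨Cb, id, ?_, ?_, ?_⟩
    · intro S hS hSL hSj
      obtain ⟨x, hx⟩ := hS
      have := Finset.mem_range.1 (hSL hx)
      have := hSj x hx
      omega
    · intro T S hT _ hTL _ hTj
      obtain ⟨x, hx⟩ := hT
      have := Finset.mem_range.1 (hTL hx)
      have := hTj x hx
      omega
    · intro U T S hU _ _ hUL _ _ hUj
      obtain ⟨x, hx⟩ := hU
      have := Finset.mem_range.1 (hUL hx)
      have := hUj x hx
      omega
  | succ n ih =>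
    intro hn
    obtain ⟨C, hC⟩ := ih (by omega)
    have e : L - n = L - (n + 1) + 1 := by omega
    rw [e] at hC
    exact rch_step hC

/-- The target exists for every colouring. -/
theorem exists_target [Finite κ] (Cb : Finset ℕ → ℕ → ℕ → κ) : TG Cb := by
  obtain ⟨L, hL⟩ := fu κ
  obtain ⟨C, hC⟩ := rch_all L Cb L le_rfl
  rw [Nat.sub_self] at hC
  obtain ⟨α, β, γ, ⟨p1, p2, p3, p4, p5, p6, p7, p8, p9⟩, q1, q2, q3⟩ := hL (fun S => C S 1 0)
  exact hC.2.2.2 α β γ p1 p2 p3 q1 q2 q3 (fun _ _ => Nat.zero_le _) p4 p5 p6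
    ⟨C α 1 0, 1, 0, le_rfl, rfl, p7, p8, p9⟩

end Pool.Agent.Y388.BB
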