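import Pool.Agent.Y388.BB.Gen

/-!
# The core theorem
-/

set_option autoImplicit false

namespace Pool.Agent.Y388.BB

variable {κ κ' : Type*}

/-- what is to be found -/
def Found (N w0 : ℕ) (G : ℕ → κ) (D : ℕ → ℕ → ℕ → κ') : Prop :=
  ∃ A b τ θ, 1 ≤ A ∧ 1 ≤ b ∧ 1 ≤ τ ∧
    (∀ e ≤ N, ∀ ρ ≤ N, G (θ + ρ * (A * (τ + e * b))) = G θ) ∧
    (∀ ρ ≤ N, G (θ + ρ * (w0 * A ^ 2 * b * τ)) = G θ) ∧
    ∀ e ≤ N, D A (τ + e * b) θ = D (w0 * A ^ 2 * b) τ θ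

/-- the state with `j` rows of different colours -/
def St (N : ℕ) (G : ℕ → κ) (D : ℕ → ℕ → ℕ → κ') (j : ℕ) : Prop :=
  ∃ (R : Finset ℕ) (H τ θ : ℕ), j ≤ R.card ∧ 1 ≤ H ∧ (∀ A ∈ R, 1 ≤ A ∧ A ∣ H) ∧
    (∀ A ∈ R, ∀ ρ ≤ N, G (θ + ρ * (A * τ)) = G θ) ∧
    ∀ A ∈ R, ∀ A' ∈ R, D A τ θ = D A' τ θ → A = A'

theorem found_step {N w0 : ℕ} {G G' : ℕ → κ} {D D' : ℕ → ℕ → ℕ → κ'} (h : Stp G G' D D')
    (hF : Found N w0 G' D') : Found N w0 G D := by
  obtain ⟨A, b, τ, θ, hA, hb, hτ, h1, h2, h3⟩ := hF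
  set K : ℕ := θ + N * (A * (τ + N * b)) + N * (w0 * A ^ 2 * b * τ) + N * A +
    N * (w0 * A ^ 2 * b) + w0 * A ^ 2 * b + A + τ + N * b with hK
  obtain ⟨s, σ, y, hσ, hy, h4, h5⟩ := h K
  have h0 : ∀ θ' ≤ K, G (θ' + s) = G' θ' := by
    intro θ' hθ'
    have := h4 θ' hθ' 0 (Nat.zero_le _) 0 (Nat.zero_le _) 0 (Nat.zero_le _)
    simpa using this
  refine ⟨A, b, τ + σ, θ + s, hA, hb, by omega, ?_, ?_, ?_⟩
  · intro e he ρ hρ
    have e1 : θ + s + ρ * (A * (τ + σ + e * b)) =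
        (θ + ρ * (A * (τ + e * b))) + s + (ρ * A) * σ + 0 * y + 0 * (σ * y) := by ring
    have b1 : ρ * (A * (τ + e * b)) ≤ N * (A * (τ + N * b)) :=
      Nat.mul_le_mul hρ (Nat.mul_le_mul_left _ (Nat.add_le_add_left (Nat.mul_le_mul_right _ he) _))
    have b2 : ρ * A ≤ N * A := Nat.mul_le_mul_right _ hρ
    rw [e1, h4 _ (by omega) _ (by omega) 0 (Nat.zero_le _) 0 (Nat.zero_le _), h1 e he ρ hρ,
      h0 θ (by omega)]
  · intro ρ hρ
    have e1 : θ + s + ρ * (w0 * A ^ 2 * b * (τ + σ)) =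
        (θ + ρ * (w0 * A ^ 2 * b * τ)) + s + (ρ * (w0 * A ^ 2 * b)) * σ + 0 * y + 0 * (σ * y) := by
      ring
    have b1 : ρ * (w0 * A ^ 2 * b * τ) ≤ N * (w0 * A ^ 2 * b * τ) := Nat.mul_le_mul_right _ hρ
    have b2 : ρ * (w0 * A ^ 2 * b) ≤ N * (w0 * A ^ 2 * b) := Nat.mul_le_mul_right _ hρ
    rw [e1, h4 _ (by omega) _ (by omega) 0 (Nat.zero_le _) 0 (Nat.zero_le _), h2 ρ hρ,
      h0 θ (by omega)]
  · intro e he
    have b1 : e * b ≤ N * b := Nat.mul_le_mul_right _ he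
    have h6 := h5 A (by omega) (τ + e * b) (by omega) θ (by omega) 0 (Nat.zero_le _)
    have h7 := h5 (w0 * A ^ 2 * b) (by omega) τ (by omega) θ (by omega) 0 (Nat.zero_le _)
    simp only [zero_mul, add_zero] at h6 h7
    have e1 : τ + σ + e * b = τ + e * b + σ := by ring
    rw [e1, h6, h7, h3 e he]

theorem st_step {N w0 : ℕ} (hw0 : 1 ≤ w0) {G G' : ℕ → κ} {D D' : ℕ → ℕ → ℕ → κ'}
    (h : Stp G G' D D') {j : ℕ} (hS : St N G' D' j) : Found N w0 G D ∨ St N G D (j + 1) := by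
  classical
  obtain ⟨R, H, τ, θ, hj, hH, hR, h1, h2⟩ := hS
  set K : ℕ := θ + N * (H * τ) + N * H + N * (H * (N * H ^ 2)) + N * (w0 * H ^ 2 * τ) +
    N * (w0 * H ^ 2) + H + τ + N * H ^ 2 with hK
  obtain ⟨s, σ, y, hσ, hy, h4, h5⟩ := h K
  have h0 : ∀ θ' ≤ K, G (θ' + s) = G' θ' := by
    intro θ' hθ'
    have := h4 θ' hθ' 0 (Nat.zero_le _) 0 (Nat.zero_le _) 0 (Nat.zero_le _)
    simpa using this
  have hθ : G (θ + s) = G' θ := h0 θ (by omega)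
  have hRH : ∀ A ∈ R, A ≤ H := fun A hA => Nat.le_of_dvd hH (hR A hA).2
  -- the old rows
  have hold : ∀ A ∈ R, D A (τ + σ) (θ + s) = D' A τ θ := by
    intro A hA
    have := h5 A (by have := hRH A hA; omega) τ (by omega) θ (by omega) 0 (Nat.zero_le _)
    simpa using this
  -- the new row
  set B : ℕ := w0 * H ^ 2 * y with hB
  have hnew : ∀ ρ ≤ N, G (θ + s + ρ * (B * (τ + σ))) = G (θ + s) := by
    intro ρ hρ
    have e1 : θ + s + ρ * (B * (τ + σ)) = θ + s + 0 * σ + (ρ * (w0 * H ^ 2 * τ)) * y +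
        (ρ * (w0 * H ^ 2)) * (σ * y) := by rw [hB]; ring
    have b1 : ρ * (w0 * H ^ 2 * τ) ≤ N * (w0 * H ^ 2 * τ) := Nat.mul_le_mul_right _ hρ
    have b2 : ρ * (w0 * H ^ 2) ≤ N * (w0 * H ^ 2) := Nat.mul_le_mul_right _ hρ
    rw [e1, h4 θ (by omega) 0 (Nat.zero_le _) _ (by omega) _ (by omega), hθ]
  by_cases hm : ∃ A ∈ R, D A (τ + σ) (θ + s) = D B (τ + σ) (θ + s)
  · left
    obtain ⟨A, hA, hAB⟩ := hm
    obtain ⟨hA1, c, hc⟩ := hR A hA
    have hAH := hRH A hA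
    have hc1 : 1 ≤ c := by
      rcases Nat.eq_zero_or_pos c with h | h
      · rw [h, mul_zero] at hc; omega
      · exact h
    have hcH : c ≤ H := by rw [hc]; exact Nat.le_mul_of_pos_left c hA1
    have hb : w0 * A ^ 2 * (c ^ 2 * y) = B := by rw [hB, hc]; ring
    have hc2 : c ^ 2 ≤ H ^ 2 := Nat.pow_le_pow_left hcH 2
    refine ⟨A, c ^ 2 * y, τ + σ, θ + s, hA1, Nat.mul_pos (Nat.pow_pos hc1) hy, by omega, ?_, ?_, ?_⟩
    · intro e he ρ hρ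
      have e1 : θ + s + ρ * (A * (τ + σ + e * (c ^ 2 * y))) =
          (θ + ρ * (A * τ)) + s + (ρ * A) * σ + (ρ * (A * (e * c ^ 2))) * y + 0 * (σ * y) := by ring
      have b1 : ρ * (A * τ) ≤ N * (H * τ) := Nat.mul_le_mul hρ (Nat.mul_le_mul_right _ hAH)
      have b2 : ρ * A ≤ N * H := Nat.mul_le_mul hρ hAH
      have b3 : ρ * (A * (e * c ^ 2)) ≤ N * (H * (N * H ^ 2)) :=
        Nat.mul_le_mul hρ (Nat.mul_le_mul hAH (Nat.mul_le_mul he hc2))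
      rw [e1, h4 _ (by omega) _ (by omega) _ (by omega) 0 (Nat.zero_le _), h1 A hA ρ hρ, hθ]
    · intro ρ hρ
      rw [hb]
      exact hnew ρ hρ
    · intro e he
      have b4 : e * c ^ 2 ≤ N * H ^ 2 := Nat.mul_le_mul he hc2
      have h6 := h5 A (by omega) τ (by omega) θ (by omega) (e * c ^ 2) (by omega)
      have e1 : τ + σ + e * (c ^ 2 * y) = τ + σ + e * c ^ 2 * y := by ring
      rw [hb, ← hAB, hold A hA, e1, h6]
  · right
    push Not at hm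
    have hBR : B ∉ R := fun hBR => hm B hBR rfl
    refine ⟨insert B R, B * H, τ + σ, θ + s, ?_, ?_, ?_, ?_, ?_⟩
    · rw [Finset.card_insert_of_notMem hBR]
      omega
    · have : 1 ≤ B := Nat.mul_pos (Nat.mul_pos hw0 (Nat.pow_pos hH)) hy
      exact Nat.mul_pos this hH
    · intro A hA
      rcases Finset.mem_insert.1 hA with h | h
      · rw [h]
        exact ⟨Nat.mul_pos (Nat.mul_pos hw0 (Nat.pow_pos hH)) hy, Dvd.intro _ rfl⟩
      · exact ⟨(hR A h).1, Dvd.dvd.mul_left (hR A h).2 _⟩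
    · intro A hA ρ hρ
      rcases Finset.mem_insert.1 hA with h | h
      · rw [h]
        exact hnew ρ hρ
      · have hAH := hRH A h
        have e1 : θ + s + ρ * (A * (τ + σ)) =
            (θ + ρ * (A * τ)) + s + (ρ * A) * σ + 0 * y + 0 * (σ * y) := by ring
        have b1 : ρ * (A * τ) ≤ N * (H * τ) := Nat.mul_le_mul hρ (Nat.mul_le_mul_right _ hAH)
        have b2 : ρ * A ≤ N * H := Nat.mul_le_mul hρ hAH
        rw [e1, h4 _ (by omega) _ (by omega) 0 (Nat.zero_le _) 0 (Nat.zero_le _), h1 A h ρ hρ, hθ]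
    · intro A hA A' hA' hAA'
      rcases Finset.mem_insert.1 hA with h | h <;> rcases Finset.mem_insert.1 hA' with h' | h'
      · rw [h, h']
      · rw [h] at hAA'
        exact absurd hAA'.symm (hm A' h')
      · rw [h'] at hAA'
        exact absurd hAA' (hm A h)
      · rw [hold A h, hold A' h'] at hAA'
        exact h2 A h A' h' hAA'

theorem st_card [Finite κ'] {N : ℕ} {G : ℕ → κ} {D : ℕ → ℕ → ℕ → κ'} {j : ℕ}
    (h : St N G D j) : j ≤ Nat.card κ' := by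
  obtain ⟨R, H, τ, θ, hj, hH, hR, h1, h2⟩ := h
  have := Fintype.ofFinite κ'
  rw [Nat.card_eq_fintype_card]
  refine hj.trans ?_
  have h3 : Function.Injective (fun A : R => D A τ θ) := by
    intro A A' hAA'
    exact Subtype.ext (h2 A A.2 A' A'.2 hAA')
  have h4 := Fintype.card_le_of_injective _ h3
  simpa using h4

theorem descend [Finite κ] [Finite κ'] (N w0 : ℕ) (hw0 : 1 ≤ w0) :
    ∀ n j : ℕ, j + n = Nat.card κ' + 1 → ∀ (G : ℕ → κ) (D : ℕ → ℕ → ℕ → κ'), ∃ G' D',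
      (Found N w0 (κ := κ) (κ' := κ') G' D' → Found N w0 G D) ∧ (St N G' D' j → Found N w0 G D) := by
  intro n
  induction n with
  | zero =>
    intro j hj G D
    refine ⟨G, D, id, fun h => ?_⟩
    have := st_card h
    omega
  | succ n ih =>
    intro j hj G D
    obtain ⟨G1, D1, h1, h2⟩ := ih (j + 1) (by omega) G D
    obtain ⟨G2, D2, h3⟩ := step G1 D1
    refine ⟨G2, D2, fun h => h1 (found_step h3 h), fun h => ?_⟩
    rcases st_step hw0 h3 h with h | h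
    · exact h1 h
    · exact h2 h

/-- The core theorem. -/
theorem core [Finite κ] [Finite κ'] (G : ℕ → κ) (D : ℕ → ℕ → κ') (N w0 : ℕ) (hw0 : 1 ≤ w0) :
    ∃ s g h, 1 ≤ g ∧ 1 ≤ h ∧
      (∀ e ≤ N, ∀ ρ ≤ N, G (s + ρ * (g + e * h)) = G s) ∧
      (∀ ρ ≤ N, G (s + ρ * (w0 * g * h)) = G s) ∧
      ∀ e ≤ N, D s (g + e * h) = D s (w0 * g * h) := by
  obtain ⟨G', D', _, h2⟩ := descend N w0 hw0 (Nat.card κ') 1 (by omega) G
    (fun m τ θ => D θ (m * τ))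
  have h3 : Found N w0 G (fun m τ θ => D θ (m * τ)) := by
    refine h2 ⟨{1}, 1, 0, 0, by simp, le_rfl, ?_, ?_, ?_⟩
    · intro A hA
      rw [Finset.mem_singleton.1 hA]
      exact ⟨le_rfl, dvd_rfl⟩
    · intro A _ ρ _
      simp
    · intro A hA A' hA' _
      rw [Finset.mem_singleton.1 hA, Finset.mem_singleton.1 hA']
  obtain ⟨A, b, τ, θ, hA, hb, hτ, h4, h5, h6⟩ := h3
  have e1 : ∀ e, A * τ + e * (A * b) = A * (τ + e * b) := fun e => by ring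
  have e2 : w0 * (A * τ) * (A * b) = w0 * A ^ 2 * b * τ := by ring
  refine ⟨θ, A * τ, A * b, Nat.mul_pos hA hτ, Nat.mul_pos hA hb, ?_, ?_, ?_⟩
  · intro e he ρ hρ
    rw [e1]
    exact h4 e he ρ hρ
  · intro ρ hρ
    rw [e2]
    exact h5 ρ hρ
  · intro e he
    rw [e1, e2]
    exact h6 e he

end Pool.Agent.Y388.BB
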