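import Pool.Agent.Y388.TO.Recur

/-!
# Generators, a Hales-Jewett lemma and the step lemma
-/

set_option autoImplicit false

namespace Pool.Agent.Y388.BB

open Combinatorics Hindman Filter Pool.Agent.W842.SP

attribute [local instance] Ultrafilter.add Ultrafilter.addSemigroup

theorem exists_next {P : Set ℕ} (hP : PS P) (K : ℕ) :
    ∃ x, 1 ≤ x ∧ PS {a | a ∈ P ∧ ∀ c ≤ K, a + c * x ∈ P} := by
  obtain ⟨p, hp, hpPS⟩ := Pool.Agent.W842.SP.exists_idem
  have h0 : ∀ᶠ n in (p : Filter ℕ), 0 < n := by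
    by_contra hcon
    rw [← Ultrafilter.eventually_not] at hcon
    obtain ⟨a, ha, ha'⟩ := (hpPS _ hcon).exists_gt 0
    exact ha' ha
  obtain ⟨x, hx, hx0⟩ := ((TO.recurK hP p hp (Finset.range (K + 1))).and h0).exists
  refine ⟨x, hx0, hx.mono ?_⟩
  rintro a ⟨ha, ha'⟩
  exact ⟨ha, fun c hc => ha' c (Finset.mem_range.2 (by omega))⟩

theorem exists_gen {P0 : Set ℕ} (hP0 : PS P0) (C : ℕ → ℕ) :
    ∃ (x : ℕ → ℕ) (P : ℕ → Set ℕ), (∀ k, 1 ≤ x k) ∧ P 0 = P0 ∧ (∀ k, PS (P k)) ∧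
      ∀ k, ∀ s ∈ P (k + 1), ∀ c ≤ C (∑ i ∈ Finset.range k, x i), s + c * x k ∈ P k := by
  choose nx hx1 hx2 using fun (q : {P : Set ℕ // PS P} × ℕ) => exists_next q.1.2 (C q.2)
  let st : ℕ → {P : Set ℕ // PS P} × ℕ := fun k =>
    Nat.rec (⟨P0, hP0⟩, 0) (fun _ q => (⟨_, hx2 q⟩, q.2 + nx q)) k
  have hst : ∀ k, st (k + 1) = (⟨_, hx2 (st k)⟩, (st k).2 + nx (st k)) := fun k => rfl
  have hsum : ∀ k, ∑ i ∈ Finset.range k, nx (st i) = (st k).2 := by
    intro k
    induction k with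
    | zero => rfl
    | succ k ih => rw [Finset.sum_range_succ, ih, hst]
  refine ⟨fun k => nx (st k), fun k => (st k).1.1, fun k => hx1 _, rfl, fun k => (st k).1.2, ?_⟩
  intro k s hs c hc
  rw [hsum] at hc
  simp only [hst] at hs
  exact hs.2 c hc

/-- The polynomial values of the generators stay in the first set. -/
theorem gen_mem {P0 : Set ℕ} {x : ℕ → ℕ} {P : ℕ → Set ℕ} {N : ℕ} (h0 : P 0 = P0)
    (h : ∀ k, ∀ s ∈ P (k + 1), ∀ c ≤ N * N + N + N * (N * (∑ i ∈ Finset.range k, x i) +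
      N * (∑ i ∈ Finset.range k, x i)), s + c * x k ∈ P k)
    {a b : ℕ → ℕ} (ha : ∀ i, a i ≤ N) (hb : ∀ i, b i ≤ 1) (hab : ∀ i, a i * b i = 0)
    (hN : 1 ≤ N)
    {n1 n2 n3 : ℕ} (h1 : n1 ≤ N) (h2 : n2 ≤ N) (h3 : n3 ≤ N) :
    ∀ k, ∀ s ∈ P k, s + n1 * (∑ i ∈ Finset.range k, a i * x i) +
      n2 * (∑ i ∈ Finset.range k, b i * x i) +
      n3 * ((∑ i ∈ Finset.range k, a i * x i) * (∑ i ∈ Finset.range k, b i * x i)) ∈ P0 := by
  intro k
  induction k with
  | zero =>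
    intro s hs
    rw [h0] at hs
    simpa using hs
  | succ k ih =>
    intro s hs
    set X := ∑ i ∈ Finset.range k, x i with hX
    set A := ∑ i ∈ Finset.range k, a i * x i with hA
    set B := ∑ i ∈ Finset.range k, b i * x i with hB
    have hAX : A ≤ N * X := by
      rw [hA, hX, Finset.mul_sum]
      exact Finset.sum_le_sum fun i _ => Nat.mul_le_mul_right _ (ha i)
    have hBX : B ≤ N * X := by
      rw [hB, hX, Finset.mul_sum]
      exact Finset.sum_le_sum fun i _ => Nat.mul_le_mul_right _ ((hb i).trans hN)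
    have hc : n1 * a k + n2 * b k + n3 * (a k * B + b k * A) ≤
        N * N + N + N * (N * X + N * X) := by
      have e1 : n1 * a k ≤ N * N := Nat.mul_le_mul h1 (ha k)
      have e2 : n2 * b k ≤ N * 1 := Nat.mul_le_mul h2 (hb k)
      have e3 : n3 * (a k * B + b k * A) ≤ N * (N * X + N * X) := by
        rcases Nat.mul_eq_zero.1 (hab k) with h | h
        · rw [h, zero_mul, zero_add]
          refine Nat.mul_le_mul h3 ?_
          calc b k * A ≤ 1 * (N * X) := Nat.mul_le_mul (hb k) hAX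
            _ ≤ N * X + N * X := by omega
        · rw [h, zero_mul, add_zero]
          have hBX1 : B ≤ X := by
            rw [hB, hX]
            refine Finset.sum_le_sum fun i _ => ?_
            calc b i * x i ≤ 1 * x i := Nat.mul_le_mul_right _ (hb i)
              _ = x i := one_mul _
          refine Nat.mul_le_mul h3 ?_
          calc a k * B ≤ N * X := Nat.mul_le_mul (ha k) hBX1
            _ ≤ N * X + N * X := by omega
      omega
    have h4 := ih _ (h k s hs _ hc)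
    rw [Finset.sum_range_succ, Finset.sum_range_succ, ← hA, ← hB]
    have e : s + n1 * (A + a k * x k) + n2 * (B + b k * x k) +
        n3 * ((A + a k * x k) * (B + b k * x k)) =
        s + (n1 * a k + n2 * b k + n3 * (a k * B + b k * A)) * x k + n1 * A + n2 * B +
          n3 * (A * B) + n3 * (a k * b k) * (x k * x k) := by ring
    rw [e, hab k, mul_zero, zero_mul, add_zero]
    exact h4

/-- Lemma J -/
theorem lemmaJ {κ κ' : Type*} [Finite κ] [Finite κ'] (G : ℕ → κ) (D : ℕ → ℕ → κ') (N : ℕ)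
    (hN : 1 ≤ N) :
    ∃ s σ y, 1 ≤ σ ∧ 1 ≤ y ∧
      (∀ n1 ≤ N, ∀ n2 ≤ N, ∀ n3 ≤ N, G (s + n1 * σ + n2 * y + n3 * (σ * y)) = G s) ∧
      ∀ ρ ≤ N, D (σ + ρ * y) s = D σ s := by
  classical
  have := Fintype.ofFinite κ
  -- a piecewise syndetic colour class
  have hPS : ∃ t, PS {s | G s = t} := by
    have h1 : PS (⋃ t ∈ (Finset.univ : Finset κ), {s | G s = t}) := by
      refine PS_univ.mono fun s _ => ?_
      rw [Set.mem_iUnion₂]
      exact ⟨G s, Finset.mem_univ _, rfl⟩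
    obtain ⟨t, _, ht⟩ := h1.biUnion
    exact ⟨t, ht⟩
  obtain ⟨t, ht⟩ := hPS
  obtain ⟨x, P, hx, hP0, hPS, hstep⟩ := exists_gen ht
    (fun X => N * N + N + N * (N * X + N * X))
  obtain ⟨ι, hι, hHJ⟩ := Line.exists_mono_in_high_dimension (Fin (N + 1)) κ'
  set M := Fintype.card ι with hM
  set e := Fintype.equivFin ι with he
  obtain ⟨s, _, hs⟩ := (hPS (M + 1)).exists_gt 0
  obtain ⟨l, c, hl⟩ := hHJ (fun w => D (x 0 + ∑ i, (w i : ℕ) * x (e i + 1)) s)
  -- coefficients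
  let A : Option (Fin (N + 1)) → ℕ := fun o => o.elim 0 (fun v => (v : ℕ))
  let B : Option (Fin (N + 1)) → ℕ := fun o => o.elim 1 (fun _ => 0)
  let a : ℕ → ℕ := fun j => if h : j - 1 < M ∧ 1 ≤ j then A (l.idxFun (e.symm ⟨j - 1, h.1⟩))
    else (if j = 0 then 1 else 0)
  let b : ℕ → ℕ := fun j => if h : j - 1 < M ∧ 1 ≤ j then B (l.idxFun (e.symm ⟨j - 1, h.1⟩))
    else 0
  have hA : ∀ o, A o ≤ N := by
    rintro (_ | v)
    · exact Nat.zero_le _
    · exact Nat.le_of_lt_succ v.isLt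
  have hB : ∀ o, B o ≤ 1 := by
    rintro (_ | v)
    · exact le_rfl
    · exact Nat.zero_le _
  have hAB : ∀ o, A o * B o = 0 := by
    rintro (_ | v)
    · exact zero_mul _
    · exact mul_zero _
  have ha : ∀ j, a j ≤ N := by
    intro j
    simp only [a]
    split_ifs
    · exact hA _
    · exact hN
    · exact Nat.zero_le _
  have hb : ∀ j, b j ≤ 1 := by
    intro j
    simp only [b]
    split_ifs
    · exact hB _
    · exact Nat.zero_le _
  have hab : ∀ j, a j * b j = 0 := by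
    intro j
    simp only [a, b]
    split_ifs
    · exact hAB _
    · exact mul_zero _
    · exact mul_zero _
  have ha1 : ∀ i : ι, a (e i + 1) = A (l.idxFun i) := by
    intro i
    have h : (e i : ℕ) + 1 - 1 < M ∧ 1 ≤ (e i : ℕ) + 1 := ⟨by have := (e i).isLt; omega, by omega⟩
    simp only [a]
    rw [dif_pos h]
    congr 2
    rw [Equiv.symm_apply_eq]
    rfl
  have hb1 : ∀ i : ι, b (e i + 1) = B (l.idxFun i) := by
    intro i
    have h : (e i : ℕ) + 1 - 1 < M ∧ 1 ≤ (e i : ℕ) + 1 := ⟨by have := (e i).isLt; omega, by omega⟩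
    simp only [b]
    rw [dif_pos h]
    congr 2
    rw [Equiv.symm_apply_eq]
    rfl
  have ha0 : a 0 = 1 := by
    show (if h : 0 - 1 < M ∧ 1 ≤ 0 then A (l.idxFun (e.symm ⟨0 - 1, h.1⟩))
      else (if 0 = 0 then 1 else 0)) = 1
    rw [dif_neg (by omega), if_pos rfl]
  have hb0 : b 0 = 0 := by
    show (if h : 0 - 1 < M ∧ 1 ≤ 0 then B (l.idxFun (e.symm ⟨0 - 1, h.1⟩)) else 0) = 0
    rw [dif_neg (by omega)]
  have hsum : ∀ f : ℕ → ℕ, ∑ j ∈ Finset.range (M + 1), f j * x j =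
      f 0 * x 0 + ∑ i : ι, f (e i + 1) * x (e i + 1) := by
    intro f
    rw [Finset.sum_range_succ', add_comm]
    congr 1
    rw [Finset.sum_range, ← e.sum_comp]
  set σ := ∑ j ∈ Finset.range (M + 1), a j * x j with hσ
  set y := ∑ j ∈ Finset.range (M + 1), b j * x j with hy
  have hσ' : σ = x 0 + ∑ i : ι, A (l.idxFun i) * x (e i + 1) := by
    rw [hσ, hsum, ha0, one_mul]
    congr 1
    exact Finset.sum_congr rfl fun i _ => by rw [ha1]
  have hy' : y = ∑ i : ι, B (l.idxFun i) * x (e i + 1) := by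
    rw [hy, hsum, hb0, zero_mul, zero_add]
    exact Finset.sum_congr rfl fun i _ => by rw [hb1]
  have hline : ∀ v : Fin (N + 1), x 0 + ∑ i, ((l v i : Fin (N + 1)) : ℕ) * x (e i + 1) =
      σ + v * y := by
    intro v
    rw [hσ', hy', Finset.mul_sum, add_assoc, ← Finset.sum_add_distrib]
    congr 1
    refine Finset.sum_congr rfl fun i _ => ?_
    rw [Line.apply_def]
    have hAB' : ∀ o : Option (Fin (N + 1)), ((o.getD v : Fin (N + 1)) : ℕ) = A o + v * B o := by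
      rintro (_ | u)
      · simp [A, B]
      · simp [A, B]
    rw [hAB' (l.idxFun i), add_mul, mul_assoc]
  refine ⟨s, σ, y, ?_, ?_, ?_, ?_⟩
  · rw [hσ']
    have := hx 0
    omega
  · obtain ⟨i, hi⟩ := l.proper
    have h1 : B (l.idxFun i) * x (e i + 1) ≤ y := by
      rw [hy']
      exact Finset.single_le_sum (f := fun i => B (l.idxFun i) * x (e i + 1))
        (fun _ _ => Nat.zero_le _) (Finset.mem_univ i)
    rw [hi] at h1
    have h2 : B none * x (e i + 1) = x (e i + 1) := one_mul _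
    have := hx (e i + 1)
    omega
  · intro n1 h1 n2 h2 n3 h3
    have h4 := gen_mem hP0 hstep ha hb hab hN h1 h2 h3 (M + 1) s hs
    have h5 := gen_mem hP0 hstep ha hb hab hN (Nat.zero_le N) (Nat.zero_le N) (Nat.zero_le N)
      (M + 1) s hs
    rw [zero_mul, zero_mul, zero_mul, add_zero, add_zero, add_zero] at h5
    have h6 : G s = t := h5
    rw [h6]
    exact h4
  · intro ρ hρ
    have h1 := hl ⟨ρ, by omega⟩
    have h2 := hl ⟨0, by omega⟩
    simp only at h1 h2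
    rw [hline] at h1 h2
    simp only [zero_mul, add_zero] at h2
    rw [h1, h2]

/-- limits along a free ultrafilter -/
theorem ulim {κ : Type*} [Finite κ] (f : ℕ → κ) :
    ∃ v, ∀ᶠ n in (hyperfilter ℕ : Filter ℕ), f n = v := by
  obtain ⟨v, hv⟩ := Ultrafilter.eq_pure_of_finite ((hyperfilter ℕ).map f)
  refine ⟨v, ?_⟩
  have h : ({v} : Set κ) ∈ (hyperfilter ℕ).map f := by
    rw [hv]
    exact Filter.mem_pure.2 rfl
  exact h

theorem ule (N : ℕ) : ∀ᶠ n in (hyperfilter ℕ : Filter ℕ), N ≤ n := by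
  have h : (hyperfilter ℕ : Filter ℕ) ≤ atTop := Nat.cofinite_eq_atTop ▸ hyperfilter_le_cofinite
  exact h (eventually_ge_atTop N)

/-- the step relation between two pairs of colourings -/
def Stp {κ κ' : Type*} (G G' : ℕ → κ) (D D' : ℕ → ℕ → ℕ → κ') : Prop :=
  ∀ N, ∃ s σ y, 1 ≤ σ ∧ 1 ≤ y ∧
    (∀ θ ≤ N, ∀ n1 ≤ N, ∀ n2 ≤ N, ∀ n3 ≤ N, G (θ + s + n1 * σ + n2 * y + n3 * (σ * y)) = G' θ) ∧
    ∀ m ≤ N, ∀ τ ≤ N, ∀ θ ≤ N, ∀ ρ ≤ N, D m (τ + σ + ρ * y) (θ + s) = D' m τ θ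

theorem step {κ κ' : Type*} [Finite κ] [Finite κ'] (G : ℕ → κ) (D : ℕ → ℕ → ℕ → κ') :
    ∃ G' D', Stp G G' D D' := by
  have hfin : ∀ N : ℕ, ∃ s σ y, 1 ≤ σ ∧ 1 ≤ y ∧
      (∀ θ ≤ N, ∀ n1 ≤ N, ∀ n2 ≤ N, ∀ n3 ≤ N,
        G (θ + s + n1 * σ + n2 * y + n3 * (σ * y)) = G (θ + s)) ∧
      ∀ m ≤ N, ∀ τ ≤ N, ∀ θ ≤ N, ∀ ρ ≤ N, D m (τ + σ + ρ * y) (θ + s) = D m (τ + σ) (θ + s) := by
    intro N
    obtain ⟨s, σ, y, hσ, hy, h1, h2⟩ := lemmaJ
      (fun s => fun θ : Fin (N + 1) => G (θ + s))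
      (fun σ s => fun p : Fin (N + 1) × Fin (N + 1) × Fin (N + 1) => D p.1 (p.2.1 + σ) (p.2.2 + s))
      (N + 1) (by omega)
    refine ⟨s, σ, y, hσ, hy, ?_, ?_⟩
    · intro θ hθ n1 hn1 n2 hn2 n3 hn3
      have h3 := congrFun (h1 n1 (by omega) n2 (by omega) n3 (by omega)) ⟨θ, by omega⟩
      simp only at h3
      rw [← h3]
      congr 1
      ring
    · intro m hm τ hτ θ hθ ρ hρ
      have h3 := congrFun (h2 ρ (by omega)) (⟨m, by omega⟩, ⟨τ, by omega⟩, ⟨θ, by omega⟩)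
      simp only at h3
      rw [← h3]
      congr 1
      ring
  choose s σ y hσ hy h1 h2 using hfin
  choose G' hG' using fun θ : ℕ => ulim (fun n => G (θ + s n))
  choose D' hD' using fun p : ℕ × ℕ × ℕ => ulim (fun n => D p.1 (p.2.1 + σ n) (p.2.2 + s n))
  refine ⟨G', fun m τ θ => D' (m, τ, θ), fun N => ?_⟩
  have e1 : ∀ᶠ n in (hyperfilter ℕ : Filter ℕ), ∀ θ ∈ Finset.range (N + 1), G (θ + s n) = G' θ :=
    (Finset.eventually_all _).2 fun θ _ => hG' θ
  have e2 : ∀ᶠ n in (hyperfilter ℕ : Filter ℕ),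
      ∀ p ∈ Finset.range (N + 1) ×ˢ Finset.range (N + 1) ×ˢ Finset.range (N + 1),
      D p.1 (p.2.1 + σ n) (p.2.2 + s n) = D' p :=
    (Finset.eventually_all _).2 fun p _ => hD' p
  obtain ⟨n, hn1, hn2, hn3⟩ := (e1.and (e2.and (ule N))).exists
  refine ⟨s n, σ n, y n, hσ n, hy n, ?_, ?_⟩
  · intro θ hθ n1 h11 n2 h12 n3 h13
    rw [h1 n θ (by omega) n1 (by omega) n2 (by omega) n3 (by omega)]
    exact hn1 θ (Finset.mem_range.2 (by omega))
  · intro m hm τ hτ θ hθ ρ hρ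
    rw [h2 n m (by omega) τ (by omega) θ (by omega) ρ (by omega)]
    exact hn2 (m, τ, θ) (by
      simp only [Finset.mem_product, Finset.mem_range]
      omega)

end Pool.Agent.Y388.BB
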