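import Pool.Agent.Y388.BB.Core

/-!
# The outer step
-/

set_option autoImplicit false

namespace Pool.Agent.Y388.BB

open Filter

variable {κ ι : Type*}

/-- good multipliers -/
def Gd (I : Finset ι) (C C0 C1 : ι → ℕ → ℕ → κ) (N s z : ℕ) : Prop :=
  (∀ d, 1 ≤ d → d ≤ N → d ∣ z) ∧
  ∀ i ∈ I, ∀ m ≤ N, ∀ σ ≤ N,
    (∀ n ≤ N, ∀ d, 1 ≤ d → d ≤ N → C i m (σ + s + n * (z / d)) = C0 i m σ) ∧
    C i (m * z) (σ + s) = C1 i m σ

/-- the outer step relation -/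
def OStp (I : Finset ι) (C C0 C1 : ι → ℕ → ℕ → κ) : Prop :=
  ∀ N, ∃ s y, 1 ≤ y ∧ Gd I C C0 C1 N s y ∧ ∀ w, 1 ≤ w → w ≤ N →
    ∃ y1 c d, 1 ≤ y1 ∧ 1 ≤ c ∧ 1 ≤ d ∧ c + d = w * y1 ∧ c * d = w * y ∧ Gd I C C0 C1 N s y1

theorem Gd.mono {I : Finset ι} {C C0 C1 C0' C1' : ι → ℕ → ℕ → κ} {N n s z : ℕ}
    (h : Gd I C C0' C1' n s z) (hN : N ≤ n)
    (h0 : ∀ i ∈ I, ∀ m ≤ N, ∀ σ ≤ N, C0' i m σ = C0 i m σ ∧ C1' i m σ = C1 i m σ) :
    Gd I C C0 C1 N s z := by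
  refine ⟨fun d h1 h2 => h.1 d h1 (h2.trans hN), fun i hi m hm σ hσ => ⟨?_, ?_⟩⟩
  · intro k hk d h1 h2
    rw [(h.2 i hi m (hm.trans hN) σ (hσ.trans hN)).1 k (hk.trans hN) d h1 (h2.trans hN),
      (h0 i hi m hm σ hσ).1]
  · rw [(h.2 i hi m (hm.trans hN) σ (hσ.trans hN)).2, (h0 i hi m hm σ hσ).2]

theorem ofin [Finite κ] (I : Finset ι) (C : ι → ℕ → ℕ → κ) (N : ℕ) :
    ∃ s y, 1 ≤ y ∧ Gd I C (fun i m σ => C i m (σ + s)) (fun i m σ => C i (m * y) (σ + s)) N s y ∧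
      ∀ w, 1 ≤ w → w ≤ N → ∃ y1 c d, 1 ≤ y1 ∧ 1 ≤ c ∧ 1 ≤ d ∧ c + d = w * y1 ∧ c * d = w * y ∧
        Gd I C (fun i m σ => C i m (σ + s)) (fun i m σ => C i (m * y) (σ + s)) N s y1 := by
  classical
  set F : ℕ := N.factorial with hF
  have hF1 : 1 ≤ F := Nat.factorial_pos N
  obtain ⟨s, g, h, hg, hh, h1, h2, h3⟩ := core
    (fun s => fun p : I × Fin (N + 1) × Fin (N + 1) => C p.1 p.2.1 (p.2.2 + s))
    (fun s x => fun p : I × Fin (N + 1) × Fin (N + 1) => C p.1 (p.2.1 * (F * x)) (p.2.2 + s))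
    (N * F + F) (F * F) (Nat.mul_pos hF1 hF1)
  have key : ∀ z, (∀ ρ ≤ N * F + F,
      (fun p : I × Fin (N + 1) × Fin (N + 1) => C p.1 p.2.1 (p.2.2 + (s + ρ * z))) =
      (fun p : I × Fin (N + 1) × Fin (N + 1) => C p.1 p.2.1 (p.2.2 + s))) →
      ((fun p : I × Fin (N + 1) × Fin (N + 1) => C p.1 (p.2.1 * (F * z)) (p.2.2 + s)) =
      (fun p : I × Fin (N + 1) × Fin (N + 1) => C p.1 (p.2.1 * (F * (F * F * g * h)))
        (p.2.2 + s))) →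
      Gd I C (fun i m σ => C i m (σ + s)) (fun i m σ => C i (m * (F * (F * F * g * h))) (σ + s))
        N s (F * z) := by
    intro z hz1 hz2
    refine ⟨fun d hd1 hd2 => Dvd.dvd.mul_right (Nat.dvd_factorial hd1 hd2) _, ?_⟩
    intro i hi m hm σ hσ
    refine ⟨?_, ?_⟩
    · intro n hn d hd1 hd2
      obtain ⟨q, hq⟩ := Nat.dvd_factorial hd1 hd2
      rw [← hF] at hq
      have e1 : F * z / d = q * z := by
        rw [hq, mul_assoc]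
        exact Nat.mul_div_cancel_left _ hd1
      have hqF : q ≤ F := by rw [hq]; exact Nat.le_mul_of_pos_left q hd1
      have hnq : n * q ≤ N * F + F := (Nat.mul_le_mul hn hqF).trans (Nat.le_add_right _ _)
      have h4 := congrFun (hz1 (n * q) hnq) (⟨i, hi⟩, ⟨m, by omega⟩, ⟨σ, by omega⟩)
      simp only at h4 ⊢
      rw [← h4, e1]
      congr 1
      ring
    · have h4 := congrFun hz2 (⟨i, hi⟩, ⟨m, by omega⟩, ⟨σ, by omega⟩)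
      exact h4
  refine ⟨s, F * (F * F * g * h), ?_, key _ h2 rfl, ?_⟩
  · exact Nat.mul_pos hF1 (Nat.mul_pos (Nat.mul_pos (Nat.mul_pos hF1 hF1) hg) hh)
  intro w hw1 hw2
  obtain ⟨e, he⟩ := Nat.dvd_factorial hw1 hw2
  rw [← hF] at he
  have heF : e ≤ F := by rw [he]; exact Nat.le_mul_of_pos_left e hw1
  have heN : e ≤ N * F + F := heF.trans (Nat.le_add_left _ _)
  refine ⟨F * (g + e * h), w * (F * g), F * (F * h),
    Nat.mul_pos hF1 (Nat.add_pos_left hg _), Nat.mul_pos hw1 (Nat.mul_pos hF1 hg),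
    Nat.mul_pos hF1 (Nat.mul_pos hF1 hh), ?_, by ring, key _ (h1 e heN) (h3 e heN)⟩
  have e1 : w * (F * (g + e * h)) = w * (F * g) + F * ((w * e) * h) := by ring
  rw [e1, ← he]

theorem ostep [Finite κ] (I : Finset ι) (C : ι → ℕ → ℕ → κ) : ∃ C0 C1, OStp I C C0 C1 := by
  choose s y h1 h2 h3 using ofin I C
  choose C0 hC0 using fun p : ι × ℕ × ℕ => ulim (fun n => C p.1 p.2.1 (p.2.2 + s n))
  choose C1 hC1 using fun p : ι × ℕ × ℕ => ulim (fun n => C p.1 (p.2.1 * y n) (p.2.2 + s n))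
  refine ⟨fun i m σ => C0 (i, m, σ), fun i m σ => C1 (i, m, σ), fun N => ?_⟩
  have e1 : ∀ᶠ n in (hyperfilter ℕ : Filter ℕ),
      ∀ p ∈ I ×ˢ Finset.range (N + 1) ×ˢ Finset.range (N + 1),
      C p.1 p.2.1 (p.2.2 + s n) = C0 p :=
    (Finset.eventually_all _).2 fun p _ => hC0 p
  have e2 : ∀ᶠ n in (hyperfilter ℕ : Filter ℕ),
      ∀ p ∈ I ×ˢ Finset.range (N + 1) ×ˢ Finset.range (N + 1),
      C p.1 (p.2.1 * y n) (p.2.2 + s n) = C1 p :=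
    (Finset.eventually_all _).2 fun p _ => hC1 p
  obtain ⟨n, hn1, hn2, hn3⟩ := (e1.and (e2.and (ule N))).exists
  have h0 : ∀ i ∈ I, ∀ m ≤ N, ∀ σ ≤ N, C i m (σ + s n) = C0 (i, m, σ) ∧
      C i (m * y n) (σ + s n) = C1 (i, m, σ) := by
    intro i hi m hm σ hσ
    have hp : (i, m, σ) ∈ I ×ˢ Finset.range (N + 1) ×ˢ Finset.range (N + 1) := by
      simp only [Finset.mem_product, Finset.mem_range]
      exact ⟨hi, by omega, by omega⟩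
    exact ⟨hn1 _ hp, hn2 _ hp⟩
  refine ⟨s n, y n, h1 n, (h2 n).mono hn3 h0, fun w hw1 hw2 => ?_⟩
  obtain ⟨y1, c, d, a1, a2, a3, a4, a5, a6⟩ := h3 n w hw1 (hw2.trans hn3)
  exact ⟨y1, c, d, a1, a2, a3, a4, a5, a6.mono hn3 h0⟩

end Pool.Agent.Y388.BB
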